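import Pool.Agent.H37.CNS.Stmts

/-! Row DES of board cns (MP_b57703): estimates for the derivation of a cover. -/

set_option autoImplicit false

namespace Pool.CND

open Finset

/-- uniqueness: the two derivations with values in the field of Laurent series agree -/
theorem des_key {k L G : Type} [Field k] [Field L] [Algebra k L] [Group G] [Finite G]
    (ρ : G →* (L ≃ₐ[k] L)) (t : L) (D : Derivation k L L) (hc : IsCover ρ t) (ht : D t = 1)
    (φ : L →ₐ[k] LaurentSeries k)
    (δ : Derivation k (LaurentSeries k) (LaurentSeries k)) :
    ∀ y : L, φ (D y) * δ (φ t) = δ (φ y) := by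
  classical
  letI : MulSemiringAction G L := MulSemiringAction.compHom L ρ
  have hsm : ∀ (g : G) (x : L), g • x = ρ g x := fun g x => rfl
  -- the difference
  let Δ : L → LaurentSeries k := fun y => φ (D y) * δ (φ t) - δ (φ y)
  have hadd : ∀ x y : L, Δ (x + y) = Δ x + Δ y := by
    intro x y
    simp only [Δ, map_add, add_mul]
    ring
  have hmul : ∀ x y : L, Δ (x * y) = φ x * Δ y + φ y * Δ x := by
    intro x y
    simp only [Δ, Derivation.leibniz, map_mul, map_add, smul_eq_mul]
    ring
  have hk : ∀ a : k, Δ (algebraMap k L a) = 0 := by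
    intro a
    simp only [Δ, Derivation.map_algebraMap, map_zero, zero_mul, AlgHom.commutes, sub_zero]
  have h0 : Δ 0 = 0 := by
    have := hk 0
    rwa [map_zero] at this
  have h1 : Δ 1 = 0 := by
    have := hk 1
    rwa [map_one] at this
  have htt : Δ t = 0 := by
    simp only [Δ, ht, map_one, one_mul, sub_self]
  have hinv : ∀ x : L, Δ x = 0 → Δ x⁻¹ = 0 := by
    intro x hx
    by_cases hx0 : x = 0
    · rw [hx0, inv_zero, h0]
    · have e := hmul x x⁻¹
      rw [mul_inv_cancel₀ hx0, h1, hx, mul_zero, add_zero] at e
      have hφ : φ x ≠ 0 := by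
        intro h
        exact hx0 ((map_eq_zero φ).mp h)
      rcases mul_eq_zero.mp e.symm with h | h
      · exact absurd h hφ
      · exact h
  have hneg : ∀ x : L, Δ x = 0 → Δ (-x) = 0 := by
    intro x hx
    have e := hadd x (-x)
    rw [add_neg_cancel, h0, hx, zero_add] at e
    exact e.symm
  -- the kernel is an intermediate field
  let E : IntermediateField k L :=
    { carrier := {x | Δ x = 0}
      mul_mem' := by
        intro a b ha hb
        show Δ (a * b) = 0
        rw [hmul, show Δ a = 0 from ha, show Δ b = 0 from hb, mul_zero, mul_zero, add_zero]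
      one_mem' := h1
      add_mem' := by
        intro a b ha hb
        show Δ (a + b) = 0
        rw [hadd, show Δ a = 0 from ha, show Δ b = 0 from hb, add_zero]
      zero_mem' := h0
      algebraMap_mem' := hk
      inv_mem' := hinv }
  have hE : IntermediateField.adjoin k {t} ≤ E := by
    rw [IntermediateField.adjoin_le_iff]
    intro x hx
    rw [Set.mem_singleton_iff] at hx
    rw [hx]
    exact htt
  have hF : ∀ x : FixedPoints.subfield G L, Δ (x : L) = 0 := by
    intro x
    have : (x : L) ∈ IntermediateField.adjoin k {t} := (hc.fixed _).mp (fun g => x.2 g)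
    exact hE this
  -- polynomials
  have hpoly : ∀ (y : L) (q : Polynomial (FixedPoints.subfield G L)),
      Δ (Polynomial.aeval y q) = φ (Polynomial.aeval y q.derivative) * Δ y := by
    intro y q
    induction q using Polynomial.induction_on' with
    | add p q hp hq =>
      rw [map_add, hadd, hp, hq, Polynomial.derivative_add, map_add, map_add, add_mul]
    | monomial n a =>
      have hpow : ∀ n : ℕ, Δ (y ^ n) = φ ((n : L) * y ^ (n - 1)) * Δ y := by
        intro n
        induction n with
        | zero => simp [h1]
        | succ n ih =>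
          rw [pow_succ, hmul, ih]
          cases n with
          | zero => simp
          | succ m =>
            simp only [Nat.add_sub_cancel, map_mul, map_pow, map_natCast, Nat.cast_add,
              Nat.cast_one, map_add, map_one]
            ring
      rw [Polynomial.aeval_monomial, Polynomial.derivative_monomial, Polynomial.aeval_monomial,
        hmul, hpow]
      have ha : Δ (algebraMap (FixedPoints.subfield G L) L a) = 0 := hF a
      rw [ha, mul_zero, add_zero]
      simp only [map_mul, map_natCast]
      ring
  intro y
  have hsep : (minpoly (FixedPoints.subfield G L) y).Separable :=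
    Algebra.IsSeparable.isSeparable (FixedPoints.subfield G L) y
  have hne := hsep.aeval_derivative_ne_zero (minpoly.aeval (FixedPoints.subfield G L) y)
  have e := hpoly y (minpoly (FixedPoints.subfield G L) y)
  rw [minpoly.aeval, h0] at e
  have hφ : φ (Polynomial.aeval y (minpoly (FixedPoints.subfield G L) y).derivative) ≠ 0 := by
    intro h
    exact hne ((map_eq_zero φ).mp h)
  rcases mul_eq_zero.mp e.symm with h | h
  · exact absurd h hφ
  · exact sub_eq_zero.mp h

/-- **DES** -/
theorem des_thm (hLEX : S_LEX) (hDLS : S_DLS) : S_DES := by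
  intro p k L G _ _ _ _ _ _ ρ t D P hp hchar hc ht
  obtain ⟨δ, hδ1, hδ2, hδ3, hδ4⟩ := hDLS p k hp hchar
  constructor
  · intro a ha y hy hy0
    have hu : t - algebraMap k L a ≠ 0 := by
      intro h
      apply hc.trans
      have h2 : t = algebraMap k L a := sub_eq_zero.mp h
      rw [h2]
      exact isAlgebraic_algebraMap a
    obtain ⟨φ, hφ1, hφ2⟩ := hLEX k L P _ hu ha
    have key := des_key ρ t D hc ht φ δ
    have h1 : δ (φ t) = 1 := by
      have e : φ t = HahnSeries.single 1 1 + algebraMap k (LaurentSeries k) a := by
        rw [← hφ1, map_sub, AlgHom.commutes]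
        ring
      rw [e, map_add, hδ1, Derivation.map_algebraMap, add_zero]
    have h2 := key y
    rw [h1, mul_one] at h2
    by_cases hD : D y = 0
    · exact Or.inl hD
    right
    have hφy : φ y ≠ 0 := fun h => hy ((map_eq_zero φ).mp h)
    have hφD : φ (D y) ≠ 0 := fun h => hD ((map_eq_zero φ).mp h)
    have hδ : δ (φ y) ≠ 0 := by rw [← h2]; exact hφD
    have o1 := hφ2 y hy
    have o2 := hφ2 (D y) hD
    rw [h2] at o2
    by_cases hdiv : (p : ℤ) ∣ (φ y).order
    · rcases hδ3 _ hφy hdiv with h | h
      · exact absurd h hδ
      · rw [o1, o2] at h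
        exact le_trans hy0 h
    · have h3 := (hδ4 _ hφy hdiv).2
      rw [o1, o2] at h3
      have hne : P.ord y ≠ 0 := by
        intro h
        apply hdiv
        rw [o1, h]
        exact dvd_zero _
      omega
  · intro hdiv y hy
    obtain ⟨u, hu, hu1⟩ := P.ord_surj
    obtain ⟨φ, hφ1, hφ2⟩ := hLEX k L P u hu hu1
    have key := des_key ρ t D hc ht φ δ
    by_cases hD : D y = 0
    · exact Or.inl hD
    right
    have ht0 : t ≠ 0 := by
      intro h
      apply hc.trans
      rw [h]
      exact isAlgebraic_zero
    have hφt : φ t ≠ 0 := fun h => ht0 ((map_eq_zero φ).mp h)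
    have hφy : φ y ≠ 0 := fun h => hy ((map_eq_zero φ).mp h)
    have hφD : φ (D y) ≠ 0 := fun h => hD ((map_eq_zero φ).mp h)
    have ot := hφ2 t ht0
    have h4 := hδ4 _ hφt (by rw [ot]; exact hdiv)
    have h2 := key y
    have hδ : δ (φ y) ≠ 0 := by rw [← h2]; exact mul_ne_zero hφD h4.1
    have o1 := hφ2 y hy
    have o2 := hφ2 (D y) hD
    have o3 : (φ (D y) * δ (φ t)).order = (φ (D y)).order + (δ (φ t)).order :=
      HahnSeries.order_mul hφD h4.1
    rw [h2, o2, h4.2, ot] at o3
    rcases hδ2 _ hφy with h | h
    · exact absurd h hδ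
    · rw [o1] at h
      omega

end Pool.CND
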